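import Pool.Agent.N523.AS.MK
import Pool.Agent.N139.AS.Stm

set_option autoImplicit false

namespace Pool.Agent.N523.AS

theorem t_MARK : Pool.Agent.N139.AS.S_MARK := by
  intro Y Q _ _ μ hμ K l hl c
  exact mark Y Q μ hμ K l hl c

end Pool.Agent.N523.AS
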