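import Mathlib

/-! Random marks (project AS of helper139). -/

set_option autoImplicit false

namespace Pool.Agent.N523.AS

open Finset

/-- the number of functions with values in `Fin l` which avoid `0` on a set -/
theorem card_avoid {Q : Type} [Fintype Q] [DecidableEq Q] (l : ℕ) (hl : 0 < l) (T : Finset Q) :
    (((Finset.univ : Finset (Q → Fin l)).filter
      (fun f => ∀ q ∈ T, f q ≠ ⟨0, hl⟩)).card : ℝ) =
      (1 - 1 / (l : ℝ)) ^ T.card * (l : ℝ) ^ Fintype.card Q := by
  classical
  have hl' : (l : ℝ) ≠ 0 := by positivity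
  have h1 : (Finset.univ : Finset (Q → Fin l)).filter (fun f => ∀ q ∈ T, f q ≠ ⟨0, hl⟩) =
      Fintype.piFinset (fun q => if q ∈ T then (Finset.univ.erase (⟨0, hl⟩ : Fin l)) else
        Finset.univ) := by
    ext f
    simp only [mem_filter, mem_univ, true_and, Fintype.mem_piFinset]
    constructor
    · intro h q
      by_cases hq : q ∈ T
      · rw [if_pos hq, mem_erase]
        exact ⟨h q hq, mem_univ _⟩
      · rw [if_neg hq]
        exact mem_univ _
    · intro h q hq
      have := h q
      rw [if_pos hq, mem_erase] at this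
      exact this.1
  rw [h1, Fintype.card_piFinset]
  push_cast
  have h2 : ∀ q : Q, (((if q ∈ T then (Finset.univ.erase (⟨0, hl⟩ : Fin l)) else
      Finset.univ).card : ℕ) : ℝ) = (if q ∈ T then (1 - 1 / (l : ℝ)) else 1) * (l : ℝ) := by
    intro q
    by_cases hq : q ∈ T
    · rw [if_pos hq, if_pos hq, card_erase_of_mem (mem_univ _), card_univ, Fintype.card_fin,
        Nat.cast_sub hl]
      push_cast
      field_simp
    · rw [if_neg hq, if_neg hq, card_univ, Fintype.card_fin, one_mul]
  rw [Finset.prod_congr rfl (fun q _ => h2 q), Finset.prod_mul_distrib, Finset.prod_const,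
    card_univ, Finset.prod_ite_mem, Finset.prod_const, Finset.univ_inter]

/-- averaging over all functions -/
theorem avg_avoid {Q : Type} [Fintype Q] [DecidableEq Q] (l : ℕ) (hl : 0 < l) (T : Finset Q)
    (P : (Q → Fin l) → Prop) [DecidablePred P] (hP : ∀ f, P f → ∀ q ∈ T, f q ≠ ⟨0, hl⟩) :
    (((Finset.univ : Finset (Q → Fin l)).filter P).card : ℝ) ≤
      (1 - 1 / (l : ℝ)) ^ T.card * (l : ℝ) ^ Fintype.card Q := by
  classical
  rw [← card_avoid l hl T]
  have h : (Finset.univ : Finset (Q → Fin l)).filter P ⊆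
      (Finset.univ : Finset (Q → Fin l)).filter (fun f => ∀ q ∈ T, f q ≠ ⟨0, hl⟩) := by
    intro f hf
    rw [mem_filter] at hf ⊢
    exact ⟨hf.1, hP f hf.2⟩
  exact_mod_cast card_le_card h

/-- two nonnegative functions with small averages have simultaneously small values -/
theorem two_avg {Ω : Type} [Fintype Ω] [Nonempty Ω] (f g : Ω → ℝ) (hf : ∀ ω, 0 ≤ f ω)
    (hg : ∀ ω, 0 ≤ g ω) (a b : ℝ) (ha : 0 ≤ a) (hb : 0 ≤ b)
    (h1 : ∑ ω, f ω ≤ a * Fintype.card Ω) (h2 : ∑ ω, g ω ≤ b * Fintype.card Ω) :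
    ∃ ω, f ω ≤ 2 * a ∧ g ω ≤ 2 * b := by
  classical
  have hN : (0 : ℝ) < Fintype.card Ω := by exact_mod_cast Fintype.card_pos
  rcases ha.eq_or_lt with ha0 | ha0
  · -- f vanishes
    have hf0 : ∀ ω, f ω = 0 := by
      have h3 : ∑ ω, f ω = 0 := le_antisymm (by rw [← ha0, zero_mul] at h1; exact h1)
        (sum_nonneg fun ω _ => hf ω)
      intro ω
      exact (sum_eq_zero_iff_of_nonneg (fun ω _ => hf ω)).1 h3 ω (mem_univ _)
    by_contra hcon
    push Not at hcon
    have h4 : ∀ ω, 2 * b < g ω := fun ω => hcon ω (by rw [hf0 ω, ← ha0]; simp)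
    have h5 : ∑ _ω : Ω, 2 * b < ∑ ω, g ω :=
      sum_lt_sum_of_nonempty univ_nonempty fun ω _ => h4 ω
    rw [sum_const, card_univ, nsmul_eq_mul] at h5
    nlinarith
  rcases hb.eq_or_lt with hb0 | hb0
  · have hg0 : ∀ ω, g ω = 0 := by
      have h3 : ∑ ω, g ω = 0 := le_antisymm (by rw [← hb0, zero_mul] at h2; exact h2)
        (sum_nonneg fun ω _ => hg ω)
      intro ω
      exact (sum_eq_zero_iff_of_nonneg (fun ω _ => hg ω)).1 h3 ω (mem_univ _)
    by_contra hcon
    push Not at hcon
    have h4 : ∀ ω, 2 * a < f ω := by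
      intro ω
      by_contra h
      push Not at h
      have := hcon ω h
      rw [hg0 ω, ← hb0] at this
      simp at this
    have h5 : ∑ _ω : Ω, 2 * a < ∑ ω, f ω :=
      sum_lt_sum_of_nonempty univ_nonempty fun ω _ => h4 ω
    rw [sum_const, card_univ, nsmul_eq_mul] at h5
    nlinarith
  by_contra hcon
  push Not at hcon
  have h4 : ∀ ω, 2 < f ω / a + g ω / b := by
    intro ω
    have e1 : 0 ≤ f ω / a := div_nonneg (hf ω) ha
    have e2 : 0 ≤ g ω / b := div_nonneg (hg ω) hb
    rcases le_or_gt (f ω) (2 * a) with h | h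
    · have h3 := hcon ω h
      have : 2 < g ω / b := by rw [lt_div_iff₀ hb0]; exact h3
      linarith
    · have : 2 < f ω / a := by rw [lt_div_iff₀ ha0]; exact h
      linarith
  have h5 : ∑ _ω : Ω, (2 : ℝ) < ∑ ω, (f ω / a + g ω / b) :=
    sum_lt_sum_of_nonempty univ_nonempty fun ω _ => h4 ω
  rw [sum_add_distrib, ← sum_div, ← sum_div, sum_const, card_univ, nsmul_eq_mul] at h5
  have h6 : (∑ ω, f ω) / a ≤ Fintype.card Ω := by
    rw [div_le_iff₀ ha0]; linarith
  have h7 : (∑ ω, g ω) / b ≤ Fintype.card Ω := by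
    rw [div_le_iff₀ hb0]; linarith
  linarith

theorem mark (Y Q : Type) [Fintype Y] [Fintype Q] (μ : Y → ℝ) (hμ : ∀ y, 0 ≤ μ y) (K l : ℕ)
    (hl : 0 < l) (c : ℤ → Y → Q) : ∃ B : Q → Prop,
      (∑ y, (open Classical in if B (c 0 y) then μ y else 0)) ≤ 2 / l * ∑ y, μ y ∧
      (∑ y, (open Classical in
        if (∀ i j : ℤ, |i| ≤ K → |j| ≤ K → c i y = c j y → i = j) ∧
          ((∀ i : ℕ, i ≤ K → ¬ B (c (-(i : ℤ)) y)) ∨ (∀ i : ℕ, 1 ≤ i → i ≤ K → ¬ B (c i y)))
        then μ y else 0)) ≤ 4 * (1 - 1 / (l : ℝ)) ^ K * ∑ y, μ y := by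
  classical
  have hl' : (0 : ℝ) < l := by exact_mod_cast hl
  have hl1 : (1 : ℝ) ≤ l := by exact_mod_cast hl
  set M : ℝ := ∑ y, μ y with hM
  have hM0 : 0 ≤ M := sum_nonneg fun y _ => hμ y
  set r : ℝ := 1 - 1 / (l : ℝ) with hr
  have hr0 : 0 ≤ r := by
    rw [hr, sub_nonneg, div_le_one hl']; exact hl1
  have hr1 : r ≤ 1 := by
    rw [hr]; have : 0 ≤ 1 / (l : ℝ) := by positivity
    linarith
  have : Nonempty (Fin l) := ⟨⟨0, hl⟩⟩
  have hcard : (Fintype.card (Q → Fin l) : ℝ) = (l : ℝ) ^ Fintype.card Q := by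
    rw [Fintype.card_fun, Fintype.card_fin]; push_cast; rfl
  let Bf : (Q → Fin l) → Q → Prop := fun f q => f q = ⟨0, hl⟩
  let F1 : (Q → Fin l) → ℝ := fun f => ∑ y, if Bf f (c 0 y) then μ y else 0
  let Out : Y → Prop := fun y => ∀ i j : ℤ, |i| ≤ K → |j| ≤ K → c i y = c j y → i = j
  let A1 : (Q → Fin l) → Y → Prop := fun f y => ∀ i : ℕ, i ≤ K → ¬ Bf f (c (-(i : ℤ)) y)
  let A2 : (Q → Fin l) → Y → Prop := fun f y => ∀ i : ℕ, 1 ≤ i → i ≤ K → ¬ Bf f (c i y)
  let F2 : (Q → Fin l) → ℝ := fun f => ∑ y, if Out y ∧ (A1 f y ∨ A2 f y) then μ y else 0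
  have hite : ∀ (p : Prop) [Decidable p] (y : Y), 0 ≤ (if p then μ y else 0) := by
    intro p _ y
    split_ifs
    · exact hμ y
    · exact le_rfl
  -- first average
  have hav1 : ∑ f, F1 f ≤ (1 / (l : ℝ) * M) * Fintype.card (Q → Fin l) := by
    have e1 : ∑ f, F1 f = ∑ y, μ y * ((Finset.univ.filter fun f : Q → Fin l =>
        Bf f (c 0 y)).card : ℝ) := by
      simp only [F1]
      rw [sum_comm]
      refine sum_congr rfl fun y _ => ?_
      rw [← sum_filter, sum_const, nsmul_eq_mul, mul_comm]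
    have e2 : ∀ y, ((Finset.univ.filter fun f : Q → Fin l => Bf f (c 0 y)).card : ℝ) =
        1 / (l : ℝ) * (l : ℝ) ^ Fintype.card Q := by
      intro y
      have h1 := card_avoid l hl ({c 0 y} : Finset Q)
      have h2 := card_filter_add_card_filter_not (s := (Finset.univ : Finset (Q → Fin l)))
        (fun f => Bf f (c 0 y))
      have h3 : (Finset.univ.filter fun f : Q → Fin l => ¬ Bf f (c 0 y)) =
          (Finset.univ.filter fun f : Q → Fin l => ∀ q ∈ ({c 0 y} : Finset Q), f q ≠ ⟨0, hl⟩) := by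
        ext f
        simp [Bf]
      rw [h3, card_univ] at h2
      have h4 : ((Finset.univ.filter fun f : Q → Fin l => Bf f (c 0 y)).card : ℝ) +
          ((Finset.univ.filter fun f : Q → Fin l =>
            ∀ q ∈ ({c 0 y} : Finset Q), f q ≠ ⟨0, hl⟩).card : ℝ) =
          Fintype.card (Q → Fin l) := by exact_mod_cast h2
      rw [h1, hcard, card_singleton, pow_one] at h4
      have : ((Finset.univ.filter fun f : Q → Fin l => Bf f (c 0 y)).card : ℝ) =
          (l : ℝ) ^ Fintype.card Q - r * (l : ℝ) ^ Fintype.card Q := by linarith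
      rw [this, hr]; ring
    rw [e1, hcard]
    rw [sum_congr rfl fun y _ => by rw [e2 y], ← sum_mul, ← hM]
    apply le_of_eq; ring
  -- second average
  have hav2 : ∑ f, F2 f ≤ (2 * r ^ K * M) * Fintype.card (Q → Fin l) := by
    have e1 : ∑ f, F2 f = ∑ y, μ y * ((Finset.univ.filter fun f : Q → Fin l =>
        Out y ∧ (A1 f y ∨ A2 f y)).card : ℝ) := by
      simp only [F2]
      rw [sum_comm]
      refine sum_congr rfl fun y _ => ?_
      rw [← sum_filter, sum_const, nsmul_eq_mul, mul_comm]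
    have e2 : ∀ y, ((Finset.univ.filter fun f : Q → Fin l =>
        Out y ∧ (A1 f y ∨ A2 f y)).card : ℝ) ≤ 2 * r ^ K * (l : ℝ) ^ Fintype.card Q := by
      intro y
      by_cases hO : Out y
      · have h1 : (Finset.univ.filter fun f : Q → Fin l => Out y ∧ (A1 f y ∨ A2 f y)) ⊆
            (Finset.univ.filter fun f : Q → Fin l => A1 f y) ∪
            (Finset.univ.filter fun f : Q → Fin l => A2 f y) := by
          intro f hf
          rw [mem_filter] at hf
          rw [mem_union, mem_filter, mem_filter]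
          rcases hf.2.2 with h | h
          · exact Or.inl ⟨mem_univ _, h⟩
          · exact Or.inr ⟨mem_univ _, h⟩
        have h2 : (((Finset.univ.filter fun f : Q → Fin l =>
            Out y ∧ (A1 f y ∨ A2 f y)).card : ℕ) : ℝ) ≤
            ((Finset.univ.filter fun f : Q → Fin l => A1 f y).card : ℝ) +
            ((Finset.univ.filter fun f : Q → Fin l => A2 f y).card : ℝ) := by
          have := (card_le_card h1).trans (card_union_le _ _)
          exact_mod_cast this
        -- the two sets of labels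
        let T1 : Finset Q := (Finset.Icc 1 K).image fun i : ℕ => c (-(i : ℤ)) y
        let T2 : Finset Q := (Finset.Icc 1 K).image fun i : ℕ => c (i : ℤ) y
        have hT1 : T1.card = K := by
          have : T1.card = (Finset.Icc 1 K).card := by
            apply card_image_of_injOn
            intro i hi j hj hij
            simp only [coe_Icc, Set.mem_Icc] at hi hj
            have := hO (-(i : ℤ)) (-(j : ℤ)) (by rw [abs_neg]; simp; exact hi.2)
              (by rw [abs_neg]; simp; exact hj.2) hij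
            omega
          rw [this, Nat.card_Icc]; omega
        have hT2 : T2.card = K := by
          have : T2.card = (Finset.Icc 1 K).card := by
            apply card_image_of_injOn
            intro i hi j hj hij
            simp only [coe_Icc, Set.mem_Icc] at hi hj
            have := hO (i : ℤ) (j : ℤ) (by simp; exact hi.2) (by simp; exact hj.2) hij
            omega
          rw [this, Nat.card_Icc]; omega
        have h3 := avg_avoid l hl T1 (fun f => A1 f y) (by
          intro f hf q hq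
          obtain ⟨i, hi, rfl⟩ := mem_image.1 hq
          rw [mem_Icc] at hi
          exact hf i hi.2)
        have h4 := avg_avoid l hl T2 (fun f => A2 f y) (by
          intro f hf q hq
          obtain ⟨i, hi, rfl⟩ := mem_image.1 hq
          rw [mem_Icc] at hi
          exact hf i hi.1 hi.2)
        rw [hT1] at h3
        rw [hT2] at h4
        linarith
      · have h1 : (Finset.univ.filter fun f : Q → Fin l => Out y ∧ (A1 f y ∨ A2 f y)) = ∅ := by
          rw [filter_eq_empty_iff]
          rintro f - ⟨h, -⟩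
          exact hO h
        rw [h1, card_empty, Nat.cast_zero]
        positivity
    rw [e1, hcard]
    calc ∑ y, μ y * ((Finset.univ.filter fun f : Q → Fin l =>
        Out y ∧ (A1 f y ∨ A2 f y)).card : ℝ)
        ≤ ∑ y, μ y * (2 * r ^ K * (l : ℝ) ^ Fintype.card Q) :=
          sum_le_sum fun y _ => mul_le_mul_of_nonneg_left (e2 y) (hμ y)
      _ = 2 * r ^ K * M * (l : ℝ) ^ Fintype.card Q := by rw [← sum_mul, ← hM]; ring
  obtain ⟨f, hf1, hf2⟩ := two_avg F1 F2 (fun f => sum_nonneg fun y _ => hite _ y)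
    (fun f => sum_nonneg fun y _ => hite _ y) (1 / (l : ℝ) * M) (2 * r ^ K * M)
    (by positivity) (by positivity) hav1 hav2
  refine ⟨Bf f, ?_, ?_⟩
  · refine le_trans (le_of_eq ?_) (hf1.trans (le_of_eq ?_))
    · refine sum_congr rfl fun y _ => ?_
      congr
    · ring
  · refine le_trans (le_of_eq ?_) (hf2.trans (le_of_eq ?_))
    · refine sum_congr rfl fun y _ => ?_
      congr
    · ring

end Pool.Agent.N523.AS
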